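import Pool.Agent.X120.GS.Cls

/-!
# The period conjecture for algebraic cycles on all products of powers of the fibres over `b^(-n)` of families of curves
with symplectic monodromy

Let `C_i → S_i`, `1 ≤ i ≤ k`, be families of curves (or of abelian varieties) over open parts `S_i ∋ 0` of the line over `ℚ`, with
period matrices (rows: Betti, columns: de Rham) `P_i(x)` of `H^1(C_{i,x})` whose entries near `0` are polynomials (for example
`Ω_i Z_i(x)`, `Ω_i` the period matrix of the fibre `C_{i,0}`, `Z_i` a fundamental matrix of the Gauss-Manin system with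
`Z_i(0) = 1`), with arbitrary complex coefficients, in G-functions `h_{i,l}(x)` (with the conditions of Siegel and Galochkin, regular singular with rational
exponents at `∞`). Let `B_i` be the matrix of the polarisation on the Betti side, a rational alternating matrix,
and suppose that the symplectic group of `B_i` preserves all polynomial relations of `P_i` over `ℂ(x)`: the
monodromy group is Zariski dense in the symplectic group. This holds for the universal families of curves, for
hyperelliptic curves, for Lefschetz pencils of curves etc. Let `b_i ≥ 2` be integers.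

A Grothendieck (de Rham-Betti) class over a number field `K` on `C_{1,x_1}^{a_1} × … × C_{k,x_k}^{a_k}`, more precisely in a
tensor power `H^{⊗m}(j)` of `H = ⨁_i H^1(C_{i,x_i})`, consists of the coordinate vectors `u` (de Rham) and `v` (Betti), with
coordinates in `K`, with `Z^{⊗m} u = (2πi)^j v` where `Z = ⨁_i P_i(x_i)`. (By the Künneth formula the cohomology of the
products of powers of curves and abelian varieties is a sum of direct summands of such objects.) Algebraic classes are of this kind.
Products of the classes `B_i` of the polarisations (the components of type `(1,1)` of the diagonals of `C_i × C_i`) are algebraic.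

**Theorem.** For all `D` and for all but `C T^(k-1) log T` of the tuples `(n_1, …, n_k)` in `[1, T]^k`, in particular for all but
`C log T` of the fibres `b^(-n)`, `n ≤ T`, if `k = 1`, the following holds for all products of powers of the fibres
`C_{i, b_i^(-n_i)}`, all number fields `K` of degree at most `D` and all twists `j` **at once**: all Grothendieck classes over `K`
(rational Betti classes with de Rham coordinates in `K` in particular, and also those with
coefficients in `K`) are linear combinations over `K` of products of classes of polarisations, and therefore algebraic. `C` depends only on `D`, the `h_i`, the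
`b_i`, `k`, the ranks and the degrees of the `P_i`. Moreover there are `D(T) → ∞` and `δ(T) → 0` such that this holds for
all number fields of degree at most `D(T)` for all but `δ(T) T^k` of the tuples.

So the conjecture of the problem holds for these varieties, as far as classes over number fields of bounded degree are concerned. The
degree of the tensors (the dimension of the products) and the heights are not bounded. By the known theorems of this kind the conjecture could fail for all
the fibres `b^(-n)`, as there are only `O(log H)` of them of height `≤ H`.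

Proof. The relations of bounded degree between the periods at the points of geometric sequences are specialisations of
functional relations for almost all tuples (`Pool.Agent.X120.GS`, see MP_caab05_ag.GeometricSequencesTorsors); by the theorems on
subtorsors of `Pool.Agent.Y123.GN` all `K`-subtorsors of `GL` through the period point are stable under the product of the
symplectic groups. The isomorphisms which respect a given class are such a subtorsor, so the class is invariant
under the product of the symplectic groups. By the first fundamental theorem of invariant theory for products of symplectic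
groups (proved in `Pool.Agent.H204R3.GP.FFT` for standard forms; here for arbitrary forms, `Pool.Agent.X120.GS.TT.fft_blocks`), and by descent from `ℂ` to `K`, it
is a combination of products of the forms.
-/

set_option autoImplicit false

open PowerSeries Filter
open scoped commutatorElement Matrix

namespace Pool.Agent.Results.MP_bf54cf_ag.GeometricSequencesOfFamilies

/-- an integer polynomial as a power series with rational coefficients -/
noncomputable def toQ (P : Polynomial ℤ) : PowerSeries ℚ := ((P.map (Int.castRingHom ℚ) : Polynomial ℚ) : PowerSeries ℚ)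

/-- the power series `P(u^e)` -/
noncomputable def atPow (e : ℕ) (P : Polynomial ℤ) : PowerSeries ℂ :=
  ((Polynomial.expand ℂ e (P.map (Int.castRingHom ℂ)) : Polynomial ℂ) : PowerSeries ℂ)

/-- the matrices `G_s` over `ℤ[x]` with `T^s y^(s) = G_s y` for all solutions `y` of `T y' = A y` -/
noncomputable def iter {r : ℕ} (T : Polynomial ℤ) (A : Fin r → Fin r → Polynomial ℤ) : ℕ → Fin r → Fin r → Polynomial ℤ
  | 0 => fun i j => if i = j then 1 else 0
  | s + 1 => fun i j => T * Polynomial.derivative (iter T A s i j) + ∑ l, iter T A s i l * A l j -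
      (s : Polynomial ℤ) * (Polynomial.derivative T * iter T A s i j)

/-- The system `T y' = A y` has a fundamental matrix of solutions of the form `u^(-M) ∑_n Φ_n(u) (log u)^n` with
`u^e = x` and convergent power series `Φ_n`: the point `0` is regular or a regular singularity with rational
exponents. -/
def QuasiUnipotent {r : ℕ} (T : Polynomial ℤ) (A : Fin r → Fin r → Polynomial ℤ) : Prop :=
  ∃ (e M : ℕ) (K : ℝ) (Φ : Matrix (Fin r) (Fin r) (Polynomial (PowerSeries ℂ))), 1 ≤ e ∧ Φ.det ≠ 0 ∧
    (∀ i j n m, ‖coeff m ((Φ i j).coeff n)‖ ≤ K ^ (m + 1)) ∧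
    ∀ i j n, atPow e T * (X * PowerSeries.derivative ℂ ((Φ i j).coeff n) +
        ((n : PowerSeries ℂ) + 1) * (Φ i j).coeff (n + 1) - (M : PowerSeries ℂ) * (Φ i j).coeff n) =
      (e : PowerSeries ℂ) * X ^ e * ∑ l, atPow e (A i l) * (Φ l j).coeff n

/-- `h_1, ..., h_r` are G-functions with rational coefficients which solve the differential system `T y' = A y`, with
the conditions of Siegel and Galochkin, and `∞` is a regular point or a regular singularity with rational exponents of the
system: for `z = 1 / x` the system is `z² T^(z) dy/dz = - A^(z) y` where `T^(z) = z^d T(1/z)` and `A^(z) = z^d A(1/z)` are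
the reflected polynomials. -/
structure GFamily {r : ℕ} (T : Polynomial ℤ) (A : Fin r → Fin r → Polynomial ℤ) (h : Fin r → PowerSeries ℚ) : Prop where
  /-- the denominator is not zero -/
  T_ne : T ≠ 0
  /-- the differential equations -/
  ode : ∀ i, toQ T * PowerSeries.derivative ℚ (h i) = ∑ j, toQ (A i j) * h j
  /-- the coefficients have geometric growth -/
  size : ∃ C : ℝ, ∀ i m, |((coeff m (h i) : ℚ) : ℝ)| ≤ C ^ (m + 1)
  /-- the common denominators of the coefficients have geometric growth -/
  den : ∃ C : ℝ, ∀ m : ℕ, ∃ d : ℕ, 0 < d ∧ (d : ℝ) ≤ C ^ (m + 1) ∧ ∀ i, ∀ j ≤ m, ∃ a : ℤ, (d : ℚ) * coeff j (h i) = a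
  /-- Galochkin's condition: the common denominators of the matrices `G_s / s!` have geometric growth -/
  galochkin : ∃ C : ℝ, ∀ m : ℕ, ∃ d : ℕ, 0 < d ∧ (d : ℝ) ≤ C ^ (m + 1) ∧ ∀ s ≤ m, ∀ i j,
    ∃ H : Polynomial ℤ, (d : Polynomial ℤ) * iter T A s i j = (s.factorial : Polynomial ℤ) * H
  /-- the local exponents at `∞` are rational and the singularity is regular -/
  regular_infty : ∃ d : ℕ, T.natDegree ≤ d ∧ (∀ i j, (A i j).natDegree ≤ d) ∧
    QuasiUnipotent (Polynomial.X ^ 2 * T.reflect d) (fun i j => - (A i j).reflect d)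

theorem iter_eq {r : ℕ} (T : Polynomial ℤ) (A : Fin r → Fin r → Polynomial ℤ) (s : ℕ) :
    iter T A s = Pool.Agent.Y120.GH.itm T A s := by
  induction s with
  | zero => rfl
  | succ s ih =>
    funext i j
    rw [iter, Pool.Agent.Y120.GH.itm, ih]

theorem qu_eq {r : ℕ} {T : Polynomial ℤ} {A : Fin r → Fin r → Polynomial ℤ} (h : QuasiUnipotent T A) :
    Pool.Agent.Y120.GH.QU0 T A := by
  obtain ⟨e, M, K, Φ, he, hdet, hc, heq⟩ := h
  have he0 : e ≠ 0 := by omega
  refine ⟨e, he0, M, K, Φ, hc, fun i j n => ?_, hdet⟩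
  have h1 := heq i j n
  simp only [atPow] at h1
  rw [Pool.Agent.Y120.GH.expand_poly he0]
  simp only [Pool.Agent.Y120.GH.expand_poly he0]
  exact h1

theorem fam {r : ℕ} {T : Polynomial ℤ} {A : Fin r → Fin r → Polynomial ℤ} {h : Fin r → PowerSeries ℚ}
    (hG : GFamily T A h) {b : ℕ} (hb : 2 ≤ b) (δ : ℕ) : Pool.Agent.X120.GS.FamG δ h b := by
  obtain ⟨d, hTd, hAd, hqu⟩ := hG.regular_infty
  obtain ⟨B, a, M, h1, h2, h3⟩ := Pool.Agent.X120.GS.family_mainS hG.T_ne hG.ode hG.size hG.den (by
    obtain ⟨C, hC⟩ := hG.galochkin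
    refine ⟨C, fun m => ?_⟩
    obtain ⟨d, h1, h2, h3⟩ := hC m
    refine ⟨d, h1, h2, fun s hs i' j' => ?_⟩
    rw [← iter_eq]
    exact h3 s hs i' j') hTd hAd (qu_eq hqu) δ
  exact ⟨hG.size, B, a, M, h1, h2, h3 b hb⟩

section family
variable {r n : ℕ}

/-- The period matrix at `x = 1 / s`: the entries are the polynomials `P a b` in the `h_l(1 / s)`. -/
noncomputable def perMat (h : Fin r → PowerSeries ℚ) (P : Fin n → Fin n → MvPolynomial (Fin r) ℂ) (s : ℝ) :
    Matrix (Fin n) (Fin n) ℂ :=
  Matrix.of fun a b => MvPolynomial.aeval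
    (fun l => ((∑' m : ℕ, ((coeff m (h l) : ℚ) : ℝ) * (1 / s) ^ m : ℝ) : ℂ)) (P a b)

/-- the polynomials in more variables -/
noncomputable def more (P : Fin n → Fin n → MvPolynomial (Fin r) ℂ) : Fin n → Fin n → MvPolynomial (Option (Fin r)) ℂ :=
  fun a b => MvPolynomial.rename some (P a b)

theorem perMat_eq (h : Fin r → PowerSeries ℚ) (P : Fin n → Fin n → MvPolynomial (Fin r) ℂ) (s : ℝ) :
    perMat h P s = Pool.Agent.Y120.R.pM h (more P) s := by
  ext a b
  show MvPolynomial.aeval _ (P a b) = MvPolynomial.aeval _ (MvPolynomial.rename some (P a b))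
  rw [MvPolynomial.aeval_rename]
  rfl

/-- the value at `x = 1 / s` and at the matrix `Z` of a polynomial in the entries of a matrix over `ℂ[x]` -/
noncomputable def relAt (R : MvPolynomial (Fin n × Fin n) (Polynomial ℂ)) (s : ℝ) (Z : Matrix (Fin n) (Fin n) ℂ) : ℂ :=
  MvPolynomial.eval₂ (Polynomial.evalRingHom (1 / (s : ℂ))) (fun v => Z v.1 v.2) R

/-- `g P(x)` satisfies all polynomial relations over `ℂ[x]` which `P(x)` satisfies. -/
def Preserves (h : Fin r → PowerSeries ℚ) (P : Fin n → Fin n → MvPolynomial (Fin r) ℂ)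
    (g : Matrix (Fin n) (Fin n) ℂ) : Prop :=
  ∀ R : MvPolynomial (Fin n × Fin n) (Polynomial ℂ), (∀ᶠ s : ℝ in Filter.atTop, relAt R s (perMat h P s) = 0) →
    ∀ᶠ s : ℝ in Filter.atTop, relAt R s (g * perMat h P s) = 0

theorem preserves_iff (h : Fin r → PowerSeries ℚ) (P : Fin n → Fin n → MvPolynomial (Fin r) ℂ)
    (g : Matrix (Fin n) (Fin n) ℂ) : Preserves h P g ↔ Pool.Agent.Y123.GN.Prs h (more P) g := by
  unfold Preserves Pool.Agent.Y123.GN.Prs
  simp only [perMat_eq]
  exact Iff.rfl

/-- The group of the matrices `g` such that `g` and `g⁻¹` preserve the relations. If `P` is a fundamental matrix of a linear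
differential system over `ℂ(x)` this is its differential Galois group. -/
noncomputable def Gal (h : Fin r → PowerSeries ℚ) (P : Fin n → Fin n → MvPolynomial (Fin r) ℂ) :
    Subgroup (Matrix.GeneralLinearGroup (Fin n) ℂ) where
  carrier := {g | Preserves h P (g : Matrix (Fin n) (Fin n) ℂ) ∧
    Preserves h P ((g⁻¹ : Matrix.GeneralLinearGroup (Fin n) ℂ) : Matrix (Fin n) (Fin n) ℂ)}
  mul_mem' := fun hg hg' => by
    simp only [Set.mem_setOf_eq, preserves_iff] at hg hg' ⊢
    exact (Pool.Agent.Y123.GN.Gs h (more P)).mul_mem' hg hg'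
  one_mem' := by
    simp only [Set.mem_setOf_eq, preserves_iff]
    exact (Pool.Agent.Y123.GN.Gs h (more P)).one_mem'
  inv_mem' := fun hg => by
    simp only [Set.mem_setOf_eq, preserves_iff] at hg ⊢
    exact (Pool.Agent.Y123.GN.Gs h (more P)).inv_mem' hg

theorem gal_eq (h : Fin r → PowerSeries ℚ) (P : Fin n → Fin n → MvPolynomial (Fin r) ℂ) :
    Gal h P = Pool.Agent.Y123.GN.Gs h (more P) := by
  ext g
  show Preserves h P _ ∧ Preserves h P _ ↔ Pool.Agent.Y123.GN.Prs h (more P) _ ∧ Pool.Agent.Y123.GN.Prs h (more P) _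
  rw [preserves_iff, preserves_iff]

/-- the matrices which respect the rational form `B` -/
def symplectic (B : Matrix (Fin n) (Fin n) ℚ) : Set (Matrix.GeneralLinearGroup (Fin n) ℂ) :=
  {g | (g : Matrix (Fin n) (Fin n) ℂ) * B.map (algebraMap ℚ ℂ) * (g : Matrix (Fin n) (Fin n) ℂ)ᵀ = B.map (algebraMap ℚ ℂ)}

end family

section
variable {k : ℕ} {n : Fin k → ℕ} {ρ : Fin k → ℕ}

/-- The tensor `B_{c_1} ⊗ … ⊗ B_{c_s}` in the tensor power of `H = ⨁_i H^1(C_i)`, the factors of the tensor power
being paired by `e`. -/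
def pairing (K : Type) [Field K] (B : ∀ i, Matrix (Fin (n i)) (Fin (n i)) ℚ) {m s : ℕ} (e : Fin s × Fin 2 ≃ Fin m)
    (c : Fin s → Fin k) : (Fin m → Σ i, Fin (n i)) → K :=
  fun I => ∏ l, if (I (e (l, 0))).1 = c l then
    ((Matrix.blockDiagonal' B (I (e (l, 0))) (I (e (l, 1))) : ℚ) : K) else 0

/-- For all number fields `K` of degree at most `D` the Betti coordinate vectors `v` of all Grothendieck classes over `K` in all
twisted tensor powers of `H = ⨁_i H^1(C_i)` are linear combinations over `K` of products of the forms `B_i`. Here `Z i` is the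
period matrix of `H^1(C_i)`, which is supposed to be invertible (as it always is). -/
def AllGenerated (D : ℕ) (B : ∀ i, Matrix (Fin (n i)) (Fin (n i)) ℚ) (Z : ∀ i, Matrix (Fin (n i)) (Fin (n i)) ℂ) : Prop :=
  (∀ i, IsUnit (Z i)) → ∀ K : Subfield ℂ, FiniteDimensional ℚ K → Module.finrank ℚ K ≤ D →
    ∀ (m : ℕ) (j : ℤ) (u v : (Fin m → Σ i, Fin (n i)) → K),
      (∀ I, ∑ J, (∏ l, Matrix.blockDiagonal' Z (I l) (J l)) * (u J : ℂ) = (2 * Real.pi * Complex.I : ℂ) ^ j * (v I : ℂ)) →
      v ∈ Submodule.span K {w | ∃ (s : ℕ) (e : Fin s × Fin 2 ≃ Fin m) (c : Fin s → Fin k), w = pairing K B e c}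

theorem good_of {D : ℕ} {h : ∀ i, Fin (ρ i) → PowerSeries ℚ}
    {P : ∀ i, Fin (n i) → Fin (n i) → MvPolynomial (Fin (ρ i)) ℂ} {t : Fin k → ℕ}
    {B : ∀ i, Matrix (Fin (n i)) (Fin (n i)) ℚ} (hB : ∀ i, IsUnit (B i)) (hBt : ∀ i, (B i)ᵀ = -B i)
    (hBG : ∀ i, ∀ g ∈ symplectic (B i), g ∈ Gal (h i) (P i))
    (hg : Pool.Agent.Y123.GN.GoodU D (Pool.Agent.Y123.GN.tpi • (1 : Matrix (Fin 1) (Fin 1) ℂ)) h (Pool.Agent.X120.GS.soM P) t) :
    AllGenerated D B fun i => perMat (h i) (P i) (t i : ℝ) := by
  intro hZ K hKf hKD m j u v hc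
  simp only [perMat_eq] at hZ hc
  refine Pool.Agent.X120.GS.cls_span B hB hBt fun g hgB => ?_
  refine Pool.Agent.X120.GS.inv_of_good (B := fun i => (B i).map (algebraMap ℚ ℂ)) (u := u) (j := j) hg (fun i => ⟨?_, ?_⟩)
    (fun i x hx => ?_) hKf hKD hZ ?_ g hgB
  · exact (hB i).map (algebraMap ℚ ℂ).mapMatrix
  · rw [← Matrix.transpose_map, hBt i]
    ext a b
    simp
  · have h1 := hBG i x hx.2
    rw [gal_eq] at h1
    exact h1
  · funext I
    exact hc I

end

/-- **The theorem.** `P i` is the period matrix of the `i`-th family, `B i` the polarisation, `b i ≥ 2` and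
`x i = b i ^ (- t i)`. -/
theorem result (k e : ℕ) (ρ n : Fin k → ℕ) (T : Fin k → Polynomial ℤ)
    (A : ∀ i, Fin (ρ i) → Fin (ρ i) → Polynomial ℤ) (h : ∀ i, Fin (ρ i) → PowerSeries ℚ)
    (hG : ∀ i, GFamily (T i) (A i) (h i)) (b : Fin k → ℕ) (hb : ∀ i, 2 ≤ b i) :
    -- number fields of degree at most `D`
    (∀ D : ℕ, ∃ C : ℝ, 0 ≤ C ∧ ∀ P : ∀ i, Fin (n i) → Fin (n i) → MvPolynomial (Fin (ρ i)) ℂ,
      (∀ i a b, (P i a b).totalDegree ≤ e) → ∀ B : ∀ i, Matrix (Fin (n i)) (Fin (n i)) ℚ, (∀ i, IsUnit (B i)) →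
      (∀ i, (B i)ᵀ = -B i) → (∀ i, ∀ g ∈ symplectic (B i), g ∈ Gal (h i) (P i)) → ∀ N : ℕ, 2 ≤ N →
      (({t : Fin k → ℕ | (∀ i, 1 ≤ t i ∧ t i ≤ N) ∧
        ¬ AllGenerated D B fun i => perMat (h i) (P i) ((b i : ℝ) ^ t i)}.ncard : ℕ) : ℝ) * N ≤
        C * (N : ℝ) ^ k * Real.log N) ∧
    -- number fields of degree at most `D N`, which tends to infinity
    (∃ (D : ℕ → ℕ) (δ : ℕ → ℝ), Tendsto D atTop atTop ∧ Tendsto δ atTop (nhds 0) ∧
      ∀ P : ∀ i, Fin (n i) → Fin (n i) → MvPolynomial (Fin (ρ i)) ℂ,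
      (∀ i a b, (P i a b).totalDegree ≤ e) → ∀ B : ∀ i, Matrix (Fin (n i)) (Fin (n i)) ℚ, (∀ i, IsUnit (B i)) →
      (∀ i, (B i)ᵀ = -B i) → (∀ i, ∀ g ∈ symplectic (B i), g ∈ Gal (h i) (P i)) → ∀ N : ℕ, 2 ≤ N →
      (({t : Fin k → ℕ | (∀ i, 1 ≤ t i ∧ t i ≤ N) ∧
        ¬ AllGenerated (D N) B fun i => perMat (h i) (P i) ((b i : ℝ) ^ t i)}.ncard : ℕ) : ℝ) ≤ δ N * (N : ℝ) ^ k) := by
  classical
  have hmain : ∀ D : ℕ, ∃ C : ℝ, 0 ≤ C ∧ ∀ P : ∀ i, Fin (n i) → Fin (n i) → MvPolynomial (Fin (ρ i)) ℂ,
      (∀ i a b, (P i a b).totalDegree ≤ e) → ∀ B : ∀ i, Matrix (Fin (n i)) (Fin (n i)) ℚ, (∀ i, IsUnit (B i)) →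
      (∀ i, (B i)ᵀ = -B i) → (∀ i, ∀ g ∈ symplectic (B i), g ∈ Gal (h i) (P i)) → ∀ N : ℕ, 2 ≤ N →
      (({t : Fin k → ℕ | (∀ i, 1 ≤ t i ∧ t i ≤ N) ∧
        ¬ AllGenerated D B fun i => perMat (h i) (P i) ((b i : ℝ) ^ t i)}.ncard : ℕ) : ℝ) * N ≤
        C * (N : ℝ) ^ k * Real.log N := by
    intro D
    obtain ⟨C, hC, hmain⟩ := Pool.Agent.X120.GS.all_mainS k D e 1 ρ n h hb fun i δ => fam (hG i) (hb i) δ
    refine ⟨C, hC, ?_⟩
    intro P hP B hB hBt hBG N hN
    set E := {t : Fin k → ℕ | (∀ i, 1 ≤ t i ∧ t i ≤ N) ∧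
        ¬ AllGenerated D B fun i => perMat (h i) (P i) ((b i : ℝ) ^ t i)} with hE
    have hfin : E.Finite := by
      refine (Set.finite_Iic (fun _ : Fin k => N)).subset ?_
      intro t ht i
      exact (ht.1 i).2
    rw [Set.ncard_eq_toFinset_card E hfin]
    refine hmain P hP (Pool.Agent.Y123.GN.tpi • (1 : Matrix (Fin 1) (Fin 1) ℂ)) N hN _ fun t ht => ?_
    have ht' : t ∈ E := hfin.mem_toFinset.1 ht
    refine ⟨ht'.1, fun hgood => ht'.2 ?_⟩
    have h1 := good_of hB hBt hBG hgood
    have h2 : (fun i => perMat (h i) (P i) ((Pool.Agent.X120.GS.tp b t i : ℕ) : ℝ)) =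
        fun i => perMat (h i) (P i) ((b i : ℝ) ^ t i) := by
      funext i
      have h3 : ((Pool.Agent.X120.GS.tp b t i : ℕ) : ℝ) = (b i : ℝ) ^ t i := by
        unfold Pool.Agent.X120.GS.tp
        push_cast
        rfl
      rw [h3]
    rw [h2] at h1
    exact h1
  refine ⟨hmain, ?_⟩
  choose C hC hcount using hmain
  obtain ⟨D, hD, hδ⟩ := Pool.Agent.Y123.GN.diag_seq (fun D N => C D * (Real.log N / N)) (by
      intro D
      have h1 : Tendsto (fun N : ℕ => Real.log N / N) atTop (nhds 0) :=
        (Real.isLittleO_log_id_atTop.tendsto_div_nhds_zero).comp tendsto_natCast_atTop_atTop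
      have h5 := h1.const_mul (C D)
      rw [mul_zero] at h5
      exact h5)
  refine ⟨D, _, hD, hδ, ?_⟩
  intro P hP B hB hBt hBG N hN
  have h1 := hcount (D N) P hP B hB hBt hBG N hN
  have hN0 : (0 : ℝ) < N := by
    have : 0 < N := by omega
    exact_mod_cast this
  rw [← le_div_iff₀ hN0] at h1
  refine h1.trans (le_of_eq ?_)
  ring

end Pool.Agent.Results.MP_bf54cf_ag.GeometricSequencesOfFamilies
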