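import Pool.Agent.Y102.V13
import Pool.Agent.Y102.AV12

set_option autoImplicit false

/-!
# One de Rham-Betti class of degree four decides about all powers of an abelian variety

Let `A` be an abelian variety of dimension `g` over the field `ℚ̄` of algebraic numbers. The de
Rham-Betti classes on the powers of `A` (the elements of `H^{2k}_dR(A ^ n / ℚ̄) ∩ H^{2k}(A ^ n, ℚ(k))`)
are considered as multilinear forms `φ` with rational values in `2m` variables in `H_1(A, ℚ)` (elements
of `H^1(A) ^ {⊗ 2m} (m)`): the space `H^{2k}(A ^ n)(k)` is a direct summand of a sum of copies of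
`H^1(A) ^ {⊗ 2k} (k)`. Nothing is assumed about periods: `AbVar` is the description of an abelian
variety over `ℚ̄` by theta functions.

Let `𝔥` be the Lie algebra of the endomorphisms of `H_1(A, ℚ)` that annihilate all de Rham-Betti
classes, and let `ω` be the Riemann form of the polarization. By the theorem of Schneider and Lang
(proved in this repository for the theta functions of `A`) the trace form of `𝔥` is nondegenerate. So
for all `u, v` in `H_1(A, ℚ)` there is a unique `E u v` in `𝔥` such that
`trace (E u v * X) = ω (X u) v` for all `X` in `𝔥`. The *Casimir class* is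
`ψ (u, v, w, z) = ω (E u v w) z`, or `∑ i, ω (X_i u) v * ω (Y_i w) z` for dual bases `X_i`, `Y_i` of `𝔥`.

**Theorem.** The Casimir class `ψ` is a de Rham-Betti class in `H^1(A) ^ {⊗ 4} (2)`. If the single
class `ψ` is a Hodge class (for example, if it is the class of an algebraic cycle), then

* all de Rham-Betti classes in `H^1(A) ^ {⊗ 2m} (m)`, for all `m`, that are annihilated by the centre
  of the Lie algebra `𝔤` of the Hodge group are Hodge classes; this is a condition only if `A` has
  factors with multiplication by CM fields (type IV), otherwise the centre is zero;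
* if the centre of `𝔤` is rigid (`RigidCentre`; for example zero, or of dimension one and not
  contained in the associative algebra generated by the derived algebra of `𝔤`), then all
  de Rham-Betti classes on all powers of `A` are Hodge classes.

So for every abelian variety without factors of type IV the statement that all de Rham-Betti classes on
all powers of `A`, in all degrees, are Hodge classes is equivalent to the same statement for one
explicit class of degree four on `A ^ 4`; it is enough to know it for the de Rham-Betti classes of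
degree four.

Here `𝔤` is the Lie algebra of the endomorphisms of `H_1(A, ℚ)` that annihilate all classes which are
at the same time Hodge classes and de Rham-Betti classes; by the theorem of Deligne all Hodge classes
are de Rham-Betti classes, so that `𝔤` is the Lie algebra of the Hodge group of `A`.

The proof: `𝔥` is contained in `𝔤`, it acts semisimply and it has the same commutant, namely the
endomorphisms of the abelian variety (Schneider-Lang, Bost). If the Casimir class of `𝔥` is a Hodge
class then `𝔤` annihilates it, and hence for `Z` in `𝔤` the map `ad Z` respects `𝔥`, as one sees from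
the definition of `ψ`; since `𝔥` has nondegenerate trace form, the derivation `ad Z` of `𝔥` is inner, `Z` is
the sum of an element of `𝔥` and of an element of the commutant, and this is in the centre of `𝔤`.
For the second part, the centre of `𝔥` is also considered: by rigidity all relations between the
eigenvalues of a general element of the centre of `𝔥` are relations for the centre of `𝔤`.
-/

open Module Matrix Pool.Agent.Y102 Pool.Agent.W516.DR Pool.Agent.H204R3.GP

noncomputable section

namespace Pool.Agent.Results.MP_bf54cf_ag.OneClassDecides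

variable {g : ℕ} (A : AbVar g)

/-- The multilinear forms in `2m` variables in the rational homology. -/
abbrev Form (m : ℕ) : Type := MultilinearMap ℚ (fun _ : Fin m × Fin 2 => A.H1) ℚ

/-- `φ` is a de Rham-Betti class in `H^1(A) ^ {⊗ 2m} (m)`. -/
def IsDRB {m : ℕ} (φ : Form A m) : Prop :=
  IsDeRhamBettiForm QBar A.dR (2 * Real.pi * Complex.I) m φ

/-- `φ` is a Hodge class in `H^1(A) ^ {⊗ 2m} (m)`. -/
def IsHodge {m : ℕ} (φ : Form A m) : Prop := IsHodgeTensor (A.per : A.H1 →+ (Fin g → ℂ)) φ

/-- The endomorphism `X` annihilates the form `φ` (as a derivation). -/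
def Annihilates {m : ℕ} (X : Module.End ℚ A.H1) (φ : Form A m) : Prop :=
  ∀ v, ∑ k, φ (Function.update v k (X (v k))) = 0

/-- `X` is in the Lie algebra `𝔥`: it annihilates all de Rham-Betti classes. -/
def InDRBLie (X : Module.End ℚ A.H1) : Prop :=
  ∀ (m : ℕ) (φ : Form A m), IsDRB A φ → Annihilates A X φ

/-- `X` is in the Lie algebra `𝔤`: it annihilates all classes that are Hodge classes and
de Rham-Betti classes. -/
def InLie (X : Module.End ℚ A.H1) : Prop :=
  ∀ (m : ℕ) (φ : Form A m), IsHodge A φ → IsDRB A φ → Annihilates A X φ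

/-- `X` is in the centre of the Lie algebra `𝔤`. -/
def InCentre (X : Module.End ℚ A.H1) : Prop := InLie A X ∧ ∀ Y, InLie A Y → Y * X = X * Y

/-- The Riemann form of the polarization, on the rational homology. -/
def rf (u v : A.H1) : ℂ := riemannForm A.lam A.η (A.per u) (A.per v)

/-- `ψ` is the Casimir class of the Lie algebra `𝔥`. -/
def IsCasimir (ψ : Form A 2) : Prop :=
  ∃ E : A.H1 → A.H1 → Module.End ℚ A.H1,
    (∀ u v, InDRBLie A (E u v)) ∧
    (∀ u v X, InDRBLie A X → (LinearMap.trace ℚ A.H1 (E u v * X) : ℂ) = rf A (X u) v) ∧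
    ∀ v, (ψ v : ℂ) = rf A (E (v (0, 0)) (v (0, 1)) (v (1, 0))) (v (1, 1))

/-- The matrix of the extension of an endomorphism of `H_1(A, ℚ)` to `H_1(A, ℂ)`. -/
def toC (X : Module.End ℚ A.H1) : Matrix (Fin (2 * g)) (Fin (2 * g)) ℂ :=
  Matrix.of fun i j => (X (Pi.single j 1) i : ℂ)

/-- Relations `∑ x_k = 0` between the eigenvalues `x_k` of `X` hold for the eigenvalues `y_k` of `Y`
for the same eigenvectors. -/
def SameRelations (X Y : Module.End ℚ A.H1) : Prop :=
  ∀ (r : ℕ) (v : Fin r → Fin (2 * g) → ℂ) (x y : Fin r → ℂ),
    (∀ k, v k ≠ 0 ∧ (toC A X) *ᵥ (v k) = x k • v k ∧ (toC A Y) *ᵥ (v k) = y k • v k) →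
      ∑ k, x k = 0 → ∑ k, y k = 0

/-- `X` generates the centre together with the commutators of the elements of `𝔤`. -/
def Generates (X : Module.End ℚ A.H1) : Prop :=
  ∀ T : Module.End ℚ A.H1, (∀ Y Z, InLie A Y → InLie A Z →
    T * (Y * Z - Z * Y) = (Y * Z - Z * Y) * T) → T * X = X * T → ∀ Z, InCentre A Z → T * Z = Z * T

/-- The centre of `𝔤` is rigid: the relations between the eigenvalues of a generating element of the
centre hold for all elements of the centre. -/
def RigidCentre : Prop :=
  ∀ X, InCentre A X → Generates A X → ∀ Y, InCentre A Y → SameRelations A X Y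

/-- **One de Rham-Betti class of degree four decides.** -/
theorem result (g : ℕ) (A : AbVar g) : ∃ ψ : Form A 2, IsCasimir A ψ ∧ IsDRB A ψ ∧
    (IsHodge A ψ →
      -- 1
      (∀ (m : ℕ) (φ : Form A m), IsDRB A φ → (∀ X, InCentre A X → Annihilates A X φ) →
        IsHodge A φ) ∧
      -- 2
      (RigidCentre A → ∀ (m : ℕ) (φ : Form A m), IsDRB A φ → IsHodge A φ)) := by
  refine ⟨A.cas, ⟨Pool.Agent.W516.KC2.EE A.LA A.trace_LA A.om, ?_, ?_, ?_⟩, A.cas_drb, ?_⟩
  · intro u v
    exact Pool.Agent.W516.KC2.EE_mem A.LA A.trace_LA A.om u v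
  · intro u v X hX
    rw [Pool.Agent.W516.KC2.EE_trace A.LA A.trace_LA A.om u v (X := X) hX]
    unfold rf
    rw [AbVar.rf_eq]
  · intro v
    unfold rf AbVar.cas
    rw [AbVar.rf_eq, Pool.Agent.W516.KC2.casimir_apply]
  · intro hcas
    have h1 := A.NA_le_of_cas hcas
    refine ⟨fun m φ hφ hz => A.hodge_of_le h1 hφ fun X hX => hz X ⟨hX.1, hX.2⟩, ?_⟩
    intro hr m φ hφ
    have h2 : A.CN ≤ A.LA := by
      refine A.centre_le fun X hX hgen Y hY => ?_
      refine dom_of_matrix fun r v x y h3 h4 => ?_
      exact hr X ⟨hX.1, hX.2⟩ (fun T hT hTX Z hZ => hgen T (fun Y hY Z hZ => hT Y Z hY hZ) hTX Z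
        ⟨hZ.1, hZ.2⟩) Y ⟨hY.1, hY.2⟩ r v x y h3 h4
    exact hodge_of_kills _ A.isRationalStructure φ fun Z hZ =>
      (h1.trans (sup_le le_rfl h2)) (A.MA_le_NA hZ) m φ hφ

end Pool.Agent.Results.MP_bf54cf_ag.OneClassDecides
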