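import Pool.Agent.X312.RL.Pred

/-!
# A gap law for the de Rham-Betti classes on `Y × X ^ n`, `Y` fixed

Let `X` and `Y` be **any two** smooth projective varieties over the field of algebraic numbers. For a
variety `Z` let `g(Z)` be the dimension of the space of the de Rham-Betti classes of all codimensions
on `Z` (the elements of the spaces `H^(2 k)_Gr (Z, ℚ(k))`), and let `r(Z)` be the rank of the group of
the algebraic cycles of all codimensions on `Z` modulo numerical equivalence. So `r(Z) ≤ g(Z)`, and
equality holds if and only if the Grothendieck period conjecture `GPC^k(Z)` is true for all `k` and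
homological and numerical equivalence coincide on `Z`. Let `b` be the sum of the Betti numbers of `X`.
Then for all `m ≥ 1`: **the conjectures `GPC^k (Y × X ^ m)` are true for all `k`, and homological and
numerical equivalence agree on `Y × X ^ m`, or**

`g(Y × X ^ n) - r(Y × X ^ n) ≥ (1 - 4 (m + 3) b ^ (m + 5) log (n + 1) / n) r(X ^ n)` **for all** `n ≥ 1`.

So for a fixed variety `Y` the numbers `g(Y × X ^ n) - r(Y × X ^ n)` are all zero or they grow at least like
the numbers `r(X ^ n)`, and `GPC` for `Y × X ^ m` in all codimensions follows from a single inequality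
between integers for one `n`. Nothing is assumed on `X` and `Y`. The index law for the powers of one
variety (the starting result `PowersIndex`) gives no information on this family, because `Y` occurs
only with exponent one: the conjecture may be true for all powers of `X` and false for `Y × X`.

The proof. Identify the classes on `Y × Z` with the homomorphisms `H(Y) → H(Z)`. The algebraic classes
`N'(Z)` and the de Rham-Betti classes `N(Z)` form two families of subspaces which are stable under
algebraic correspondences `Z → Z'`. If they differ for `Z = X ^ m`, one takes an idempotent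
correspondence `g` on `P = X ^ m` of minimal rank which does not vanish on `N(P) / N'(P)` and an element
`z` of `g N(P)` which is not in `N'(P)`. A correspondence `x` with `x z ∈ N'(P)` has a nilpotent compression
`g x g`, so the trace of `g x` vanishes; therefore `dim N(Z) / N'(Z)` is at least the rank of the trace form
`(u, v) ↦ tr (g v u)` for all `Z`, and for `Z = X ^ n` this rank is compared with `r(X ^ n)` by the
log-convexity of the sequence of the ranks of the intersection forms and by the symmetric group.
-/

set_option autoImplicit false

open CategoryTheory AlgebraicGeometry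

universe u v

namespace Pool.Agent.Results.MP_bf54cf_ag.RelativeIndexLaw

open Pool.Agent.H914 Pool.Agent.H914.VarClass Pool.Agent.H914.VarClass.Obj
  Pool.Agent.H914.WeilCohomology Pool.Agent.Y133.Per
open Pool.Agent.Y133.Half (pw cycRank)

variable {k : Type u} [Field k] {𝒱 : VarClass k} {ops : CycleOps 𝒱}

/-- The sum of the Betti numbers of `X`. -/
noncomputable def totalBetti (W : WeilCohomology.{u, v} ops) (X : 𝒱.Obj) : ℕ :=
  Module.finrank W.K (W.H X)

/-- **The gap law for de Rham-Betti classes.** Here `pw X m` is the product of `m + 1` copies of
`X`. -/
theorem result (W : WeilCohomology.{u, v} ops) [Algebra W.K ℂ] {F : Subfield ℂ} (D : DeRham W F)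
    (X Y : 𝒱.Obj) (m : ℕ) :
    ((∀ j, GPC D (Y.prod (pw X m)) j) ∧ HomEqNum W (Y.prod (pw X m))) ∨
    ∀ n : ℕ, (cycRank ops (Y.prod (pw X n)) : ℝ) +
      (1 - 4 * (m + 4) * (totalBetti W X : ℝ) ^ (m + 6) * Real.log (n + 2) / (n + 1)) *
        cycRank ops (pw X n) ≤ drbDim D (Y.prod (pw X n)) := by
  have h4 : ∀ n : ℕ, Pool.Agent.X312.RL.cst (Module.finrank W.K (W.H X)) (m + 1) 2 n =
      4 * (m + 4) * (totalBetti W X : ℝ) ^ (m + 6) * Real.log (n + 2) / (n + 1) := by
    intro n
    unfold Pool.Agent.X312.RL.cst totalBetti
    push_cast
    ring
  rcases Pool.Agent.X312.RL.pred_rel (drbPred D) X Y m with h | h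
  · exact Or.inl ⟨fun j c hc => h.1 j c hc, h.2⟩
  · right
    intro n
    have h3 := h n
    rw [h4] at h3
    exact h3

end Pool.Agent.Results.MP_bf54cf_ag.RelativeIndexLaw
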