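import Pool.Agent.Y102.V13
import Pool.Agent.Y102.AV12

set_option autoImplicit false

/-!
# De Rham-Betti classes are Hodge classes on all powers of the abelian varieties over `ℚ̄` whose
# Hodge group is of type `A_1`, with or without complex multiplication

Let `A` be an abelian variety over the field `ℚ̄` of algebraic numbers. As in `MaximalRealMult`,
`KugaSatake` and `OneClassDecides` the de Rham-Betti classes on the powers of `A` are considered as
multilinear forms `φ` with rational values in `2m` variables in `H_1(A, ℚ)` (elements of
`H^1(A) ^ {⊗ 2m} (m)`), and nothing is assumed about periods: `AbVar` is the description of an abelian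
variety over `ℚ̄` by theta functions.

Let `𝔤` be the Lie algebra of the endomorphisms of `H_1(A, ℚ)` that annihilate all classes which are at
the same time Hodge classes and de Rham-Betti classes (`InLie`). By the theorem of Deligne all Hodge
classes are de Rham-Betti classes, so that `𝔤` is the Lie algebra of the Hodge group of `A`.

**Theorem.** Assume that `𝔤 ⊗ ℂ` is the sum of its centre and of algebras `sl(2)`, which act on each
irreducible component of `H_1(A, ℂ)` by a tensor product of standard representations of some of them
(`TypeA1`). Then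

1. all de Rham-Betti classes in `H^1(A) ^ {⊗ 2m} (m)`, for all `m`, that are annihilated by the centre
   of `𝔤` are Hodge classes;
2. if the centre of `𝔤` is rigid (`RigidCentre`; for example zero, or of dimension one), then all
   de Rham-Betti classes on all powers of `A` are Hodge classes.

The hypothesis `TypeA1`: the `φ i` are homomorphisms (not preserving the unit) from the algebra of the
matrices of size two to the endomorphisms of `H_1(A, ℂ)` with commuting images; `φ i 1` is the
projection to the sum of the irreducible components on which the factor `i` acts non-trivially. The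
last condition says that for two factors `i`, `k` either both act non-trivially on some irreducible
component (`φ i 1 * φ k 1 ≠ 0`), or there is an irreducible representation `W` of the other factors
and of the centre such that `V_i ⊗ W` and `V_k ⊗ W` are components of `H_1(A, ℂ)`, where `V_i` is the
standard representation of the factor `i` (`N` is a homomorphism `V_k ⊗ W → V_i ⊗ W` of the form
`a ⊗ 1`).

Examples are all products of powers of elliptic curves and of abelian surfaces with quaternionic
multiplication, more generally the abelian varieties of `GL(2)`-type; the abelian fourfolds of Mumford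
with Hodge group a form of `SL(2) ^ 3` which acts by the tensor product `V_1 ⊗ V_2 ⊗ V_3` (the ring of
endomorphisms is `ℤ`, but not all Hodge classes on the powers are generated by divisors), and their
generalizations with `SL(2) ^ n` for odd `n`; the products of such a variety and of elliptic curves with
complex multiplication. The cases where all representations are spin representations of copies of
`so(3)` or of `so(4)` are also in `KugaSatake`, and the cases of the standard representations (with
`g` commuting symmetric endomorphisms) in `MaximalRealMult`.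

The proof: let `𝔥` be the Lie algebra of the endomorphisms that annihilate all de Rham-Betti classes.
By the theorem of Schneider and Lang it is a subalgebra of `𝔤` which acts semisimply and has the same
commutant. Since the commutant is the same, each projection of the derived algebra of `𝔥` to a factor
`sl(2)` is surjective, and the projection to two factors is not the graph of an isomorphism, as this
would be given by an inner automorphism of the algebra of matrices and would produce additional
elements of the commutant; by the lemmas of Goursat and Ribet the derived algebras of `𝔥` and of `𝔤`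
are equal. For the second part the centre of `𝔥` is considered: by rigidity the relations between the
eigenvalues of a general element of the centre of `𝔥` are relations for the centre of `𝔤`.
-/

open Module Matrix Pool.Agent.Y102 Pool.Agent.W516.DR Pool.Agent.H204R3.GP

noncomputable section

namespace Pool.Agent.Results.MP_bf54cf_ag.TypeA1

variable {g : ℕ} (A : AbVar g)

/-- The multilinear forms in `2m` variables in the rational homology. -/
abbrev Form (m : ℕ) : Type := MultilinearMap ℚ (fun _ : Fin m × Fin 2 => A.H1) ℚ

/-- `φ` is a de Rham-Betti class in `H^1(A) ^ {⊗ 2m} (m)`. -/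
def IsDRB {m : ℕ} (φ : Form A m) : Prop :=
  IsDeRhamBettiForm QBar A.dR (2 * Real.pi * Complex.I) m φ

/-- `φ` is a Hodge class in `H^1(A) ^ {⊗ 2m} (m)`. -/
def IsHodge {m : ℕ} (φ : Form A m) : Prop := IsHodgeTensor (A.per : A.H1 →+ (Fin g → ℂ)) φ

/-- The endomorphism `X` annihilates the form `φ` (as a derivation). -/
def Annihilates {m : ℕ} (X : Module.End ℚ A.H1) (φ : Form A m) : Prop :=
  ∀ v, ∑ k, φ (Function.update v k (X (v k))) = 0

/-- `X` is in the Lie algebra `𝔤`: it annihilates all classes that are Hodge classes and
de Rham-Betti classes. -/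
def InLie (X : Module.End ℚ A.H1) : Prop :=
  ∀ (m : ℕ) (φ : Form A m), IsHodge A φ → IsDRB A φ → Annihilates A X φ

/-- `X` is in the centre of the Lie algebra `𝔤`. -/
def InCentre (X : Module.End ℚ A.H1) : Prop := InLie A X ∧ ∀ Y, InLie A Y → Y * X = X * Y

/-- The algebra of the endomorphisms of `H_1(A, ℂ)`, as matrices for the basis of the lattice. -/
abbrev EndC (_ : AbVar g) : Type := Matrix (Fin (2 * g)) (Fin (2 * g)) ℂ

/-- The matrix of the extension of an endomorphism of `H_1(A, ℚ)` to `H_1(A, ℂ)`. -/
def toC (X : Module.End ℚ A.H1) : EndC A := Matrix.of fun i j => (X (Pi.single j 1) i : ℂ)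

/-- The complex Lie algebra `𝔤 ⊗ ℂ`, acting on `H_1(A, ℂ)`. -/
def lieC : Submodule ℂ (EndC A) := Submodule.span ℂ {Y | ∃ X, InLie A X ∧ Y = toC A X}

/-- The algebra of the matrices of size two. -/
abbrev M2 : Type := Matrix (Fin 2) (Fin 2) ℂ

/-- `z` commutes with the Lie algebra `𝔤 ⊗ ℂ`. -/
def Central (z : EndC A) : Prop := ∀ Y ∈ lieC A, z * Y = Y * z

/-- The Lie algebra `𝔤 ⊗ ℂ` is the sum of its centre and of algebras `sl(2)`, acting by tensor
products of standard representations. -/
def TypeA1 : Prop := ∃ (n : ℕ) (φ : Fin n → M2 →ₗ[ℂ] EndC A),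
  (∀ i a b, φ i (a * b) = φ i a * φ i b) ∧
  (∀ i k, i ≠ k → ∀ a b, φ i a * φ k b = φ k b * φ i a) ∧
  (∀ i, φ i 1 ≠ 0) ∧
  (∀ i (x : M2), x.trace = 0 → φ i x ∈ lieC A) ∧
  (∀ X ∈ lieC A, ∃ ξ : Fin n → M2, (∀ i, (ξ i).trace = 0) ∧ Central A (X - ∑ i, φ i (ξ i))) ∧
  ∀ i k, i ≠ k → φ i 1 * φ k 1 ≠ 0 ∨ ∃ N : EndC A, N ≠ 0 ∧ φ i 1 * N = N ∧ N * φ k 1 = N ∧
    (∀ l, l ≠ i → l ≠ k → ∀ a, N * φ l a = φ l a * N) ∧ ∀ z ∈ lieC A, Central A z → N * z = z * N

/-- Relations `∑ x_k = 0` between the eigenvalues `x_k` of `X` hold for the eigenvalues `y_k` of `Y`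
for the same eigenvectors. -/
def SameRelations (X Y : Module.End ℚ A.H1) : Prop :=
  ∀ (r : ℕ) (v : Fin r → Fin (2 * g) → ℂ) (x y : Fin r → ℂ),
    (∀ k, v k ≠ 0 ∧ (toC A X) *ᵥ (v k) = x k • v k ∧ (toC A Y) *ᵥ (v k) = y k • v k) →
      ∑ k, x k = 0 → ∑ k, y k = 0

/-- `X` generates the centre together with the commutators of the elements of `𝔤`. -/
def Generates (X : Module.End ℚ A.H1) : Prop :=
  ∀ T : Module.End ℚ A.H1, (∀ Y Z, InLie A Y → InLie A Z →
    T * (Y * Z - Z * Y) = (Y * Z - Z * Y) * T) → T * X = X * T → ∀ Z, InCentre A Z → T * Z = Z * T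

/-- The centre of `𝔤` is rigid: the relations between the eigenvalues of a generating element of the
centre hold for all elements of the centre. -/
def RigidCentre : Prop :=
  ∀ X, InCentre A X → Generates A X → ∀ Y, InCentre A Y → SameRelations A X Y

/-- **All de Rham-Betti classes are Hodge classes for abelian varieties with Hodge group of
type `A_1`.** -/
theorem result (g : ℕ) (A : AbVar g) (h : TypeA1 A) :
    -- 1
    (∀ (m : ℕ) (φ : Form A m), IsDRB A φ → (∀ X, InCentre A X → Annihilates A X φ) →
      IsHodge A φ) ∧
    -- 2
    (RigidCentre A → ∀ (m : ℕ) (φ : Form A m), IsDRB A φ → IsHodge A φ) := by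
  obtain ⟨n, φ, h1, h2, h3, h4, h5, h6⟩ := h
  have ht : TA.TypeA φ (Submodule.span ℂ {Y | ∃ X ∈ A.NA, Y = Pool.Agent.Y102.toC X}) :=
    ⟨h1, h2, h3, h4, h5, h6⟩
  have h7 := ht.map (matE (2 * g))
  rw [map_lie] at h7
  have h8 := A.NA_le_of_typeA h7
  refine ⟨fun m φ hφ hz => A.hodge_of_le h8 hφ fun X hX => hz X ⟨hX.1, hX.2⟩, ?_⟩
  intro hr m φ hφ
  have h2 : A.CN ≤ A.LA := by
    refine A.centre_le fun X hX hgen Y hY => ?_
    refine dom_of_matrix fun r v x y h3 h4 => ?_
    exact hr X ⟨hX.1, hX.2⟩ (fun T hT hTX Z hZ => hgen T (fun Y hY Z hZ => hT Y Z hY hZ) hTX Z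
      ⟨hZ.1, hZ.2⟩) Y ⟨hY.1, hY.2⟩ r v x y h3 h4
  exact hodge_of_kills _ A.isRationalStructure φ fun Z hZ =>
    (h8.trans (sup_le le_rfl h2)) (A.MA_le_NA hZ) m φ hφ

end Pool.Agent.Results.MP_bf54cf_ag.TypeA1
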